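import Mathlib
import Pool.Agent.H71.Compl

namespace Pool.Agent.Results.MP_47408d_gt.ConvSeq

open Filter Topology
open scoped Pointwise

theorem result (G : Type) [Group G] [t : TopologicalSpace G] [IsTopologicalGroup G] [T2Space G]
    [Infinite G]
    (hprecompact : ∀ U ∈ 𝓝 (1 : G), ∃ F : Finset G, ∀ x : G, ∃ g ∈ F, x ∈ g • U)
    (hminimal : ∀ τ : TopologicalSpace G, @IsTopologicalGroup G τ _ → @T2Space G τ →
      (∀ U : Set G, IsOpen[τ] U → IsOpen[t] U) → τ = t) :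
    ∃ (u : ℕ → G) (x : G), Function.Injective u ∧ Tendsto u atTop (𝓝 x) := by
  obtain ⟨v, h1, h2⟩ := H71.Lie.null_of_minimal (G := G) (fun U hU => by
    obtain ⟨F, hF⟩ := hprecompact U hU
    refine ⟨F, fun x => ?_⟩
    obtain ⟨g, hg, hx⟩ := hF x
    exact ⟨g, hg, Set.mem_smul_set_iff_inv_smul_mem.1 hx⟩) hminimal
  exact ⟨v, 1, h1, h2⟩

end Pool.Agent.Results.MP_47408d_gt.ConvSeq
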